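import Mathlib

/-!
# A nearly Gorenstein, not almost symmetric semigroup with four generators and four relations

The numerical semigroup generated by `6, 7, 8, 9` has pseudo-Frobenius numbers `10` and `11`.
-/

set_option autoImplicit false

open Polynomial

namespace Pool.Agent.Results.MP_8e9e7d_al.FourRelations

/-- The submonoid `Γ` of `ℕ` is a numerical semigroup: its complement is finite. -/
def IsNumSemigroup (Γ : AddSubmonoid ℕ) : Prop := {n : ℕ | n ∉ Γ}.Finite

/-- The integer `x` lies in `Γ`. -/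
def Mem (Γ : AddSubmonoid ℕ) (x : ℤ) : Prop := ∃ n ∈ Γ, (n : ℤ) = x

/-- The minimal generators of `Γ`: the nonzero elements that are not a sum of two nonzero
elements. -/
def minGens (Γ : AddSubmonoid ℕ) : Set ℕ :=
  {g | g ∈ Γ ∧ g ≠ 0 ∧ ∀ a ∈ Γ, ∀ b ∈ Γ, a ≠ 0 → b ≠ 0 → a + b ≠ g}

/-- `F` is the Frobenius number of `Γ`: the largest integer not in `Γ`. -/
def IsFrob (Γ : AddSubmonoid ℕ) (F : ℤ) : Prop := ¬ Mem Γ F ∧ ∀ x, F < x → Mem Γ x

/-- `x` is a pseudo-Frobenius number of `Γ`. -/
def IsPF (Γ : AddSubmonoid ℕ) (x : ℤ) : Prop :=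
  ¬ Mem Γ x ∧ ∀ s ∈ Γ, s ≠ 0 → Mem Γ (x + s)

/-- `Γ` is nearly Gorenstein. -/
def NearlyGorenstein (Γ : AddSubmonoid ℕ) : Prop :=
  ∀ g ∈ minGens Γ, ∃ p, IsPF Γ p ∧ ∀ q, IsPF Γ q → Mem Γ (g + p - q)

/-- `Γ` is almost symmetric. -/
def AlmostSymmetric (Γ : AddSubmonoid ℕ) : Prop :=
  ∀ F, IsFrob Γ F → ∀ x : ℤ, ¬ Mem Γ x → Mem Γ (F - x) ∨ (IsPF Γ x ∧ IsPF Γ (F - x))

/-- The ideal of relations `I_Γ`: the kernel of `k[x_g : g minimal generator] → k[t]`,
`x_g ↦ t ^ g`. -/
noncomputable def relIdeal (k : Type*) [Field k] (Γ : AddSubmonoid ℕ) :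
    Ideal (MvPolynomial (minGens Γ) k) :=
  RingHom.ker (MvPolynomial.aeval (R := k) (fun g : minGens Γ => (X : k[X]) ^ (g : ℕ)))

/-- The minimal number of generators of the ideal of relations. -/
noncomputable def rho (k : Type*) [Field k] (Γ : AddSubmonoid ℕ) : ℕ :=
  sInf {n | ∃ s : Finset (MvPolynomial (minGens Γ) k), s.card = n ∧
    Ideal.span (s : Set (MvPolynomial (minGens Γ) k)) = relIdeal k Γ}

/-- The semigroup `{0, 6, 7, 8, 9, 12, 13, ...}` generated by `6, 7, 8, 9`. -/
def G : AddSubmonoid ℕ where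
  carrier := {n | n = 0 ∨ (6 ≤ n ∧ n ≤ 9) ∨ 12 ≤ n}
  zero_mem' := Or.inl rfl
  add_mem' := by
    intro a b ha hb
    simp only [Set.mem_ofPred_eq] at *
    omega

theorem mem_G {n : ℕ} : n ∈ G ↔ n = 0 ∨ (6 ≤ n ∧ n ≤ 9) ∨ 12 ≤ n := Iff.rfl

theorem mem_iff {x : ℤ} : Mem G x ↔ x = 0 ∨ (6 ≤ x ∧ x ≤ 9) ∨ 12 ≤ x := by
  constructor
  · rintro ⟨n, hn, rfl⟩
    rw [mem_G] at hn
    omega
  · intro h
    refine ⟨x.toNat, ?_, by omega⟩
    rw [mem_G]
    omega

theorem minGens_G : minGens G = {6, 7, 8, 9} := by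
  ext g
  simp only [minGens, Set.mem_ofPred_eq, Set.mem_insert_iff, Set.mem_singleton_iff]
  constructor
  · rintro ⟨h1, h2, h3⟩
    rw [mem_G] at h1
    by_contra hc
    have h4 : 12 ≤ g := by omega
    by_cases h5 : g = 16
    · exact h3 8 (by rw [mem_G]; omega) 8 (by rw [mem_G]; omega) (by omega) (by omega) (by omega)
    by_cases h6 : g = 17
    · exact h3 8 (by rw [mem_G]; omega) 9 (by rw [mem_G]; omega) (by omega) (by omega) (by omega)
    exact h3 6 (by rw [mem_G]; omega) (g - 6) (by rw [mem_G]; omega) (by omega) (by omega)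
      (by omega)
  · intro h
    refine ⟨by rw [mem_G]; omega, by omega, ?_⟩
    intro a ha b hb ha0 hb0
    rw [mem_G] at ha hb
    omega

theorem isPF_iff {x : ℤ} : IsPF G x ↔ x = 10 ∨ x = 11 := by
  constructor
  · rintro ⟨h1, h2⟩
    have h6 := h2 6 (by rw [mem_G]; omega) (by omega)
    have h7 := h2 7 (by rw [mem_G]; omega) (by omega)
    have h8 := h2 8 (by rw [mem_G]; omega) (by omega)
    have h9 := h2 9 (by rw [mem_G]; omega) (by omega)
    rw [mem_iff] at h1 h6 h7 h8 h9
    push_cast at h6 h7 h8 h9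
    omega
  · intro h
    refine ⟨by rw [mem_iff]; omega, ?_⟩
    intro s hs hs0
    rw [mem_G] at hs
    rw [mem_iff]
    omega

theorem isFrob_G : IsFrob G 11 := by
  refine ⟨by rw [mem_iff]; omega, ?_⟩
  intro x hx
  rw [mem_iff]
  omega

theorem nearlyGorenstein_G : NearlyGorenstein G := by
  intro g hg
  rw [minGens_G] at hg
  simp only [Set.mem_insert_iff, Set.mem_singleton_iff] at hg
  rcases hg with rfl | rfl | rfl | rfl
  · refine ⟨11, isPF_iff.2 (Or.inr rfl), fun q hq => ?_⟩
    rw [isPF_iff] at hq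
    rw [mem_iff]
    push_cast
    omega
  all_goals
    refine ⟨10, isPF_iff.2 (Or.inl rfl), fun q hq => ?_⟩
    rw [isPF_iff] at hq
    rw [mem_iff]
    push_cast
    omega

theorem not_almostSymmetric_G : ¬ AlmostSymmetric G := by
  intro h
  have h1 := h 11 isFrob_G 10 (by rw [mem_iff]; omega)
  rw [mem_iff, isPF_iff, isPF_iff] at h1
  omega

/-! ### The relations -/

section algebra

variable {k : Type*} [Field k]

/-- the normal forms -/
def NF {A : Type*} [CommRing A] [Algebra k A] (a b c d : A) (x : A) : Prop :=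
  ∃ p0 p1 p2 p3 p4 p5 : k[X], x = aeval a p0 + aeval a p1 * b + aeval a p2 * c + aeval a p3 * d +
    aeval a p4 * (b * d) + aeval a p5 * (c * d)

variable {A : Type*} [CommRing A] [Algebra k A] {a b c d : A}

theorem NF.add {x y : A} (hx : NF (k := k) a b c d x) (hy : NF (k := k) a b c d y) :
    NF (k := k) a b c d (x + y) := by
  obtain ⟨p0, p1, p2, p3, p4, p5, rfl⟩ := hx
  obtain ⟨q0, q1, q2, q3, q4, q5, rfl⟩ := hy
  refine ⟨p0 + q0, p1 + q1, p2 + q2, p3 + q3, p4 + q4, p5 + q5, ?_⟩
  simp only [map_add]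
  ring

theorem NF.algebraMap (r : k) : NF (k := k) a b c d (algebraMap k A r) := by
  refine ⟨C r, 0, 0, 0, 0, 0, ?_⟩
  simp

theorem NF.mul_a {x : A} (hx : NF (k := k) a b c d x) : NF (k := k) a b c d (x * a) := by
  obtain ⟨p0, p1, p2, p3, p4, p5, rfl⟩ := hx
  refine ⟨p0 * X, p1 * X, p2 * X, p3 * X, p4 * X, p5 * X, ?_⟩
  simp only [map_mul, aeval_X]
  ring

theorem NF.mul_b (h1 : b ^ 2 = a * c) (h2 : b * c = a * d) (h4 : d ^ 2 = a ^ 3) {x : A}
    (hx : NF (k := k) a b c d x) : NF (k := k) a b c d (x * b) := by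
  obtain ⟨p0, p1, p2, p3, p4, p5, rfl⟩ := hx
  refine ⟨p5 * X ^ 4, p0, p1 * X, p2 * X, p3, p4 * X, ?_⟩
  simp only [map_mul, map_pow, aeval_X]
  linear_combination (aeval a p1) * h1 + (aeval a p2) * h2 + (aeval a p4 * d) * h1 +
    (aeval a p5 * d) * h2 + (aeval a p5 * a) * h4

theorem NF.mul_c (h2 : b * c = a * d) (h3 : c ^ 2 = b * d) (h4 : d ^ 2 = a ^ 3) {x : A}
    (hx : NF (k := k) a b c d x) : NF (k := k) a b c d (x * c) := by
  obtain ⟨p0, p1, p2, p3, p4, p5, rfl⟩ := hx
  refine ⟨p4 * X ^ 4, p5 * X ^ 3, p0, p1 * X, p2, p3, ?_⟩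
  simp only [map_mul, map_pow, aeval_X]
  linear_combination (aeval a p1) * h2 + (aeval a p2) * h3 + (aeval a p4 * d) * h2 +
    (aeval a p4 * a) * h4 + (aeval a p5 * d) * h3 + (aeval a p5 * b) * h4

theorem NF.mul_d (h4 : d ^ 2 = a ^ 3) {x : A}
    (hx : NF (k := k) a b c d x) : NF (k := k) a b c d (x * d) := by
  obtain ⟨p0, p1, p2, p3, p4, p5, rfl⟩ := hx
  refine ⟨p3 * X ^ 3, p4 * X ^ 3, p5 * X ^ 3, p0, p1, p2, ?_⟩
  simp only [map_mul, map_pow, aeval_X]
  linear_combination (aeval a p3) * h4 + (aeval a p4 * b) * h4 + (aeval a p5 * c) * h4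

end algebra

section poly

variable {k : Type*} [Field k]

theorem coeff_aux (p : k[X]) (w n : ℕ) : (aeval ((X : k[X]) ^ 6) p * X ^ w).coeff n =
    if w ≤ n then (if 6 ∣ n - w then p.coeff ((n - w) / 6) else 0) else 0 := by
  have h : (aeval ((X : k[X]) ^ 6) : k[X] →ₐ[k] k[X]) = expand k 6 := by
    apply Polynomial.algHom_ext
    simp
  rw [h, coeff_mul_X_pow', coeff_expand (by norm_num)]

theorem coeff_hit (p : k[X]) (w j : ℕ) :
    (aeval ((X : k[X]) ^ 6) p * X ^ w).coeff (6 * j + w) = p.coeff j := by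
  rw [coeff_aux, if_pos (by omega), if_pos (by omega)]
  congr 1
  omega

theorem coeff_miss (p : k[X]) (w n : ℕ) (h : n % 6 ≠ w % 6) :
    (aeval ((X : k[X]) ^ 6) p * X ^ w).coeff n = 0 := by
  rw [coeff_aux]
  split_ifs with h1 h2
  · exact absurd h2 (by omega)
  · rfl
  · rfl

theorem indep {p0 p1 p2 p3 p4 p5 : k[X]}
    (h : aeval ((X : k[X]) ^ 6) p0 * X ^ 0 + aeval ((X : k[X]) ^ 6) p1 * X ^ 7 +
      aeval ((X : k[X]) ^ 6) p2 * X ^ 8 + aeval ((X : k[X]) ^ 6) p3 * X ^ 9 +
      aeval ((X : k[X]) ^ 6) p4 * X ^ 16 + aeval ((X : k[X]) ^ 6) p5 * X ^ 17 = 0) :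
    p0 = 0 ∧ p1 = 0 ∧ p2 = 0 ∧ p3 = 0 ∧ p4 = 0 ∧ p5 = 0 := by
  have key : ∀ n, _ := fun n => congrArg (fun q => coeff q n) h
  simp only [coeff_add, coeff_zero] at key
  refine ⟨?_, ?_, ?_, ?_, ?_, ?_⟩ <;> ext j
  · have := key (6 * j + 0)
    rwa [coeff_hit, coeff_miss _ 7 _ (by omega), coeff_miss _ 8 _ (by omega),
      coeff_miss _ 9 _ (by omega), coeff_miss _ 16 _ (by omega), coeff_miss _ 17 _ (by omega),
      add_zero, add_zero, add_zero, add_zero, add_zero] at this
  · have := key (6 * j + 7)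
    rwa [coeff_hit, coeff_miss _ 0 _ (by omega), coeff_miss _ 8 _ (by omega),
      coeff_miss _ 9 _ (by omega), coeff_miss _ 16 _ (by omega), coeff_miss _ 17 _ (by omega),
      add_zero, add_zero, add_zero, add_zero, zero_add] at this
  · have := key (6 * j + 8)
    rwa [coeff_hit, coeff_miss _ 0 _ (by omega), coeff_miss _ 7 _ (by omega),
      coeff_miss _ 9 _ (by omega), coeff_miss _ 16 _ (by omega), coeff_miss _ 17 _ (by omega),
      add_zero, add_zero, add_zero, add_zero, zero_add] at this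
  · have := key (6 * j + 9)
    rwa [coeff_hit, coeff_miss _ 0 _ (by omega), coeff_miss _ 7 _ (by omega),
      coeff_miss _ 8 _ (by omega), coeff_miss _ 16 _ (by omega), coeff_miss _ 17 _ (by omega),
      add_zero, add_zero, add_zero, add_zero, zero_add] at this
  · have := key (6 * j + 16)
    rwa [coeff_hit, coeff_miss _ 0 _ (by omega), coeff_miss _ 7 _ (by omega),
      coeff_miss _ 8 _ (by omega), coeff_miss _ 9 _ (by omega), coeff_miss _ 17 _ (by omega),
      add_zero, add_zero, add_zero, add_zero, zero_add] at this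
  · have := key (6 * j + 17)
    rwa [coeff_hit, coeff_miss _ 0 _ (by omega), coeff_miss _ 7 _ (by omega),
      coeff_miss _ 8 _ (by omega), coeff_miss _ 9 _ (by omega), coeff_miss _ 16 _ (by omega),
      add_zero, add_zero, add_zero, add_zero, zero_add] at this

end poly

/-- the four generators -/
def g6 : minGens G := ⟨6, by rw [minGens_G]; simp⟩
/-- the four generators -/
def g7 : minGens G := ⟨7, by rw [minGens_G]; simp⟩
/-- the four generators -/
def g8 : minGens G := ⟨8, by rw [minGens_G]; simp⟩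
/-- the four generators -/
def g9 : minGens G := ⟨9, by rw [minGens_G]; simp⟩

section relations

variable (k : Type*) [Field k]

open MvPolynomial in
/-- the four relations -/
noncomputable def gens : Finset (MvPolynomial (minGens G) k) := by
  classical
  exact {MvPolynomial.X g7 ^ 2 - MvPolynomial.X g6 * MvPolynomial.X g8,
    MvPolynomial.X g7 * MvPolynomial.X g8 - MvPolynomial.X g6 * MvPolynomial.X g9,
    MvPolynomial.X g8 ^ 2 - MvPolynomial.X g7 * MvPolynomial.X g9,
    MvPolynomial.X g9 ^ 2 - MvPolynomial.X g6 ^ 3}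

theorem mem_gens {x : MvPolynomial (minGens G) k} : x ∈ gens k ↔
    x = MvPolynomial.X g7 ^ 2 - MvPolynomial.X g6 * MvPolynomial.X g8 ∨
    x = MvPolynomial.X g7 * MvPolynomial.X g8 - MvPolynomial.X g6 * MvPolynomial.X g9 ∨
    x = MvPolynomial.X g8 ^ 2 - MvPolynomial.X g7 * MvPolynomial.X g9 ∨
    x = MvPolynomial.X g9 ^ 2 - MvPolynomial.X g6 ^ 3 := by
  classical
  simp [gens]

theorem card_gens : (gens k).card ≤ 4 := by
  classical
  exact Finset.card_le_four

/-- the parametrisation -/
noncomputable def phi : MvPolynomial (minGens G) k →ₐ[k] k[X] :=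
  MvPolynomial.aeval (R := k) (fun g : minGens G => (X : k[X]) ^ (g : ℕ))

theorem phi_X (g : minGens G) : phi k (MvPolynomial.X g) = X ^ (g : ℕ) := by
  simp [phi]

theorem gens_le : Ideal.span (gens k : Set (MvPolynomial (minGens G) k)) ≤ relIdeal k G := by
  rw [Ideal.span_le]
  intro x hx
  have hx' := (mem_gens k).1 hx
  show phi k x = 0
  rcases hx' with rfl | rfl | rfl | rfl <;>
    simp only [map_sub, map_mul, map_pow, phi_X, g6, g7, g8, g9] <;> ring

theorem le_gens : relIdeal k G ≤ Ideal.span (gens k : Set (MvPolynomial (minGens G) k)) := by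
  intro f hf
  have hf' : phi k f = 0 := hf
  set J := Ideal.span (gens k : Set (MvPolynomial (minGens G) k)) with hJ
  let A := MvPolynomial (minGens G) k ⧸ J
  let mk : MvPolynomial (minGens G) k →ₐ[k] A := Ideal.Quotient.mkₐ k J
  have hmk : ∀ x, x ∈ gens k → mk x = 0 := fun x hx =>
    (Ideal.Quotient.eq_zero_iff_mem).2 (Ideal.subset_span hx)
  have r1 : mk (MvPolynomial.X g7) ^ 2 = mk (MvPolynomial.X g6) * mk (MvPolynomial.X g8) := by
    have := hmk _ ((mem_gens k).2 (Or.inl rfl))
    rw [map_sub, map_pow, map_mul] at this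
    exact sub_eq_zero.1 this
  have r2 : mk (MvPolynomial.X g7) * mk (MvPolynomial.X g8) =
      mk (MvPolynomial.X g6) * mk (MvPolynomial.X g9) := by
    have := hmk _ ((mem_gens k).2 (Or.inr (Or.inl rfl)))
    rw [map_sub, map_mul, map_mul] at this
    exact sub_eq_zero.1 this
  have r3 : mk (MvPolynomial.X g8) ^ 2 = mk (MvPolynomial.X g7) * mk (MvPolynomial.X g9) := by
    have := hmk _ ((mem_gens k).2 (Or.inr (Or.inr (Or.inl rfl))))
    rw [map_sub, map_pow, map_mul] at this
    exact sub_eq_zero.1 this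
  have r4 : mk (MvPolynomial.X g9) ^ 2 = mk (MvPolynomial.X g6) ^ 3 := by
    have := hmk _ ((mem_gens k).2 (Or.inr (Or.inr (Or.inr rfl))))
    rw [map_sub, map_pow, map_pow] at this
    exact sub_eq_zero.1 this
  have hNF : ∀ x, NF (k := k) (mk (MvPolynomial.X g6)) (mk (MvPolynomial.X g7))
      (mk (MvPolynomial.X g8)) (mk (MvPolynomial.X g9)) (mk x) := by
    intro x
    induction x using MvPolynomial.induction_on with
    | C r =>
      have : mk (MvPolynomial.C r) = algebraMap k A r := mk.commutes r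
      rw [this]
      exact NF.algebraMap r
    | add p q hp hq => rw [map_add]; exact hp.add hq
    | mul_X p i hp =>
      rw [map_mul]
      have hi : i = g6 ∨ i = g7 ∨ i = g8 ∨ i = g9 := by
        obtain ⟨i, hi⟩ := i
        have hi' := hi
        rw [minGens_G] at hi'
        simp only [Set.mem_insert_iff, Set.mem_singleton_iff] at hi'
        simp only [g6, g7, g8, g9, Subtype.mk.injEq]
        exact hi'
      rcases hi with rfl | rfl | rfl | rfl
      · exact hp.mul_a
      · exact hp.mul_b r1 r2 r4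
      · exact hp.mul_c r2 r3 r4
      · exact hp.mul_d r4
  obtain ⟨p0, p1, p2, p3, p4, p5, h⟩ := hNF f
  let ψ : A →ₐ[k] k[X] := Ideal.Quotient.liftₐ J (phi k) (fun x hx => gens_le k hx)
  have hψ : ∀ x, ψ (mk x) = phi k x := fun x => rfl
  have h2 := congrArg ψ h
  rw [hψ, hf'] at h2
  simp only [map_add, map_mul, ← Polynomial.aeval_algHom_apply, hψ, phi_X] at h2
  obtain ⟨e0, e1, e2, e3, e4, e5⟩ := indep (k := k) (p0 := p0) (p1 := p1) (p2 := p2) (p3 := p3)
    (p4 := p4) (p5 := p5) (by
      rw [eq_comm, h2]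
      simp only [g6, g7, g8, g9]
      ring)
  subst e0 e1 e2 e3 e4 e5
  simp only [map_zero, zero_mul, add_zero] at h
  exact (Ideal.Quotient.eq_zero_iff_mem).1 h

theorem rho_le : rho k G ≤ 4 := by
  unfold rho
  refine le_trans (Nat.sInf_le (m := (gens k).card) ?_) (card_gens k)
  exact ⟨gens k, rfl, le_antisymm (gens_le k) (le_gens k)⟩

/-! ### Fewer than four relations do not suffice -/

/-- no constant and no linear term -/
def NoLin (f : MvPolynomial (minGens G) k) : Prop :=
  MvPolynomial.coeff 0 f = 0 ∧ ∀ j, MvPolynomial.coeff (Finsupp.single j 1) f = 0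

variable {k}

theorem NoLin.mul {f : MvPolynomial (minGens G) k} (hf : NoLin k f)
    (q : MvPolynomial (minGens G) k) : NoLin k (f * q) := by
  classical
  induction q using MvPolynomial.induction_on with
  | C r =>
    refine ⟨?_, fun j => ?_⟩
    · rw [mul_comm, MvPolynomial.coeff_C_mul, hf.1, mul_zero]
    · rw [mul_comm, MvPolynomial.coeff_C_mul, hf.2 j, mul_zero]
  | add p q hp hq =>
    rw [mul_add]
    refine ⟨?_, fun j => ?_⟩
    · rw [MvPolynomial.coeff_add, hp.1, hq.1, add_zero]
    · rw [MvPolynomial.coeff_add, hp.2 j, hq.2 j, add_zero]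
  | mul_X p i hp =>
    rw [← mul_assoc]
    refine ⟨?_, fun j => ?_⟩
    · rw [MvPolynomial.coeff_mul_X']
      simp
    · rw [MvPolynomial.coeff_mul_X']
      split_ifs with h
      · have : i = j := by
          by_contra hij
          rw [Finsupp.mem_support_iff, Finsupp.single_apply, if_neg (Ne.symm hij)] at h
          exact h rfl
        subst this
        rw [tsub_self]
        exact hp.1
      · rfl

theorem NoLin.add {f g : MvPolynomial (minGens G) k} (hf : NoLin k f) (hg : NoLin k g) :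
    NoLin k (f + g) :=
  ⟨by rw [MvPolynomial.coeff_add, hf.1, hg.1, add_zero],
    fun j => by rw [MvPolynomial.coeff_add, hf.2 j, hg.2 j, add_zero]⟩

/-- the four monomials of degree two -/
noncomputable def mon : Fin 4 → (minGens G →₀ ℕ) :=
  ![Finsupp.single g7 1 + Finsupp.single g7 1, Finsupp.single g7 1 + Finsupp.single g8 1,
    Finsupp.single g8 1 + Finsupp.single g8 1, Finsupp.single g9 1 + Finsupp.single g9 1]

theorem mon_eq (i : Fin 4) : ∃ a b, mon i = Finsupp.single a 1 + Finsupp.single b 1 := by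
  fin_cases i
  · exact ⟨g7, g7, rfl⟩
  · exact ⟨g7, g8, rfl⟩
  · exact ⟨g8, g8, rfl⟩
  · exact ⟨g9, g9, rfl⟩

/-- the coefficients at these monomials -/
noncomputable def L : MvPolynomial (minGens G) k →ₗ[k] (Fin 4 → k) :=
  LinearMap.pi (fun i => MvPolynomial.lcoeff k (mon i))

theorem L_apply (f : MvPolynomial (minGens G) k) (i : Fin 4) :
    L f i = MvPolynomial.coeff (mon i) f := rfl

theorem L_mul_X {f : MvPolynomial (minGens G) k} (hf : NoLin k f) (i : minGens G) :
    L (f * MvPolynomial.X i) = 0 := by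
  classical
  funext j
  rw [L_apply, MvPolynomial.coeff_mul_X', Pi.zero_apply]
  obtain ⟨a, b, hab⟩ := mon_eq j
  rw [hab]
  split_ifs with h
  · by_cases h1 : i = a
    · subst h1
      rw [add_tsub_cancel_left]
      exact hf.2 b
    · by_cases h2 : i = b
      · subst h2
        rw [add_tsub_cancel_right]
        exact hf.2 a
      · exfalso
        rw [Finsupp.mem_support_iff, Finsupp.add_apply, Finsupp.single_apply,
          Finsupp.single_apply, if_neg (Ne.symm h1), if_neg (Ne.symm h2)] at h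
        exact h rfl
  · rfl

theorem L_mul {f : MvPolynomial (minGens G) k} (hf : NoLin k f)
    (q : MvPolynomial (minGens G) k) : L (f * q) = MvPolynomial.coeff 0 q • L f := by
  classical
  induction q using MvPolynomial.induction_on with
  | C r =>
    funext j
    rw [L_apply, mul_comm, MvPolynomial.coeff_C_mul, MvPolynomial.coeff_C, if_pos rfl,
      Pi.smul_apply, L_apply, smul_eq_mul]
  | add p q hp hq => rw [mul_add, map_add, hp, hq, MvPolynomial.coeff_add, add_smul]
  | mul_X p i hp =>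
    rw [← mul_assoc, L_mul_X (hf.mul p)]
    have : MvPolynomial.coeff 0 (p * MvPolynomial.X i) = 0 := by
      rw [MvPolynomial.coeff_mul_X']
      simp
    rw [this, zero_smul]

theorem coeff_aux2 (a b c d : minGens G) (h : ∀ e, (Finsupp.single a 1 + Finsupp.single b 1 :
    minGens G →₀ ℕ) e = (Finsupp.single c 1 + Finsupp.single d 1 : minGens G →₀ ℕ) e) :
    (a = c ∧ b = d) ∨ (a = d ∧ b = c) := by
  classical
  have h1 := h a
  have h2 := h b
  simp only [Finsupp.add_apply, Finsupp.single_apply] at h1 h2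
  by_cases e1 : a = c
  · subst e1
    left
    refine ⟨rfl, ?_⟩
    by_contra e2
    simp only [if_true, if_neg (Ne.symm e2)] at h2
    split_ifs at h2; omega
  · by_cases e2 : a = d
    · subst e2
      right
      refine ⟨rfl, ?_⟩
      by_contra e3
      simp only [if_true, if_neg (Ne.symm e3)] at h2
      split_ifs at h2; omega
    · simp only [if_true, if_neg (Ne.symm e1), if_neg (Ne.symm e2)] at h1
      omega

theorem coeff_XX [DecidableEq (minGens G)] (a b c d : minGens G) :
    MvPolynomial.coeff (Finsupp.single c 1 + Finsupp.single d 1)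
      (MvPolynomial.X a * MvPolynomial.X b : MvPolynomial (minGens G) k) =
    if (a = c ∧ b = d) ∨ (a = d ∧ b = c) then 1 else 0 := by
  have h : (MvPolynomial.X a * MvPolynomial.X b : MvPolynomial (minGens G) k) =
      MvPolynomial.monomial (Finsupp.single a 1 + Finsupp.single b 1) 1 := by
    rw [MvPolynomial.X, MvPolynomial.X, MvPolynomial.monomial_mul, mul_one]
  rw [h, MvPolynomial.coeff_monomial]
  by_cases h1 : (a = c ∧ b = d) ∨ (a = d ∧ b = c)
  · rw [if_pos h1, if_pos]
    rcases h1 with ⟨rfl, rfl⟩ | ⟨rfl, rfl⟩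
    · rfl
    · exact add_comm _ _
  · rw [if_neg h1, if_neg]
    intro h2
    exact h1 (coeff_aux2 a b c d (fun e => by rw [h2]))

theorem coeff_X3 (a c d : minGens G) :
    MvPolynomial.coeff (Finsupp.single c 1 + Finsupp.single d 1)
      (MvPolynomial.X a ^ 3 : MvPolynomial (minGens G) k) = 0 := by
  classical
  rw [MvPolynomial.coeff_X_pow, if_neg]
  intro h
  have h1 := congrArg (fun f : minGens G →₀ ℕ => f a) h
  simp only [Finsupp.add_apply, Finsupp.single_apply, if_true] at h1
  split_ifs at h1 <;> omega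

theorem L_gen0 : L (MvPolynomial.X g7 ^ 2 - MvPolynomial.X g6 * MvPolynomial.X g8 :
    MvPolynomial (minGens G) k) = Pi.single 0 1 := by
  classical
  funext i
  rw [L_apply, MvPolynomial.coeff_sub, pow_two]
  fin_cases i <;> simp [mon, coeff_XX, g6, g7, g8, g9]

theorem L_gen1 : L (MvPolynomial.X g7 * MvPolynomial.X g8 - MvPolynomial.X g6 * MvPolynomial.X g9 :
    MvPolynomial (minGens G) k) = Pi.single 1 1 := by
  classical
  funext i
  rw [L_apply, MvPolynomial.coeff_sub]
  fin_cases i <;> simp [mon, coeff_XX, g6, g7, g8, g9]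

theorem L_gen2 : L (MvPolynomial.X g8 ^ 2 - MvPolynomial.X g7 * MvPolynomial.X g9 :
    MvPolynomial (minGens G) k) = Pi.single 2 1 := by
  classical
  funext i
  rw [L_apply, MvPolynomial.coeff_sub, pow_two]
  fin_cases i <;> simp [mon, coeff_XX, g6, g7, g8, g9]

theorem L_gen3 : L (MvPolynomial.X g9 ^ 2 - MvPolynomial.X g6 ^ 3 :
    MvPolynomial (minGens G) k) = Pi.single 3 1 := by
  classical
  funext i
  rw [L_apply, MvPolynomial.coeff_sub, pow_two]
  fin_cases i <;> simp [mon, coeff_XX, coeff_X3, g6, g7, g8, g9]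

theorem noLin_XX (a b : minGens G) :
    NoLin k (MvPolynomial.X a * MvPolynomial.X b : MvPolynomial (minGens G) k) := by
  classical
  refine ⟨?_, fun j => ?_⟩
  · rw [MvPolynomial.coeff_mul_X']
    simp
  · rw [MvPolynomial.coeff_mul_X']
    split_ifs with h
    · have : b = j := by
        by_contra hij
        rw [Finsupp.mem_support_iff, Finsupp.single_apply, if_neg (Ne.symm hij)] at h
        exact h rfl
      subst this
      rw [tsub_self]
      simp
    · rfl

theorem NoLin.sub {f g : MvPolynomial (minGens G) k} (hf : NoLin k f) (hg : NoLin k g) :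
    NoLin k (f - g) :=
  ⟨by rw [MvPolynomial.coeff_sub, hf.1, hg.1, sub_zero],
    fun j => by rw [MvPolynomial.coeff_sub, hf.2 j, hg.2 j, sub_zero]⟩

theorem noLin_gens {x : MvPolynomial (minGens G) k} (hx : x ∈ gens k) : NoLin k x := by
  rcases (mem_gens k).1 hx with rfl | rfl | rfl | rfl
  · rw [pow_two]; exact (noLin_XX _ _).sub (noLin_XX _ _)
  · exact (noLin_XX _ _).sub (noLin_XX _ _)
  · rw [pow_two]; exact (noLin_XX _ _).sub (noLin_XX _ _)
  · rw [pow_two, pow_succ (MvPolynomial.X g6) 2, pow_two]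
    exact (noLin_XX _ _).sub ((noLin_XX _ _).mul _)

theorem noLin_rel {x : MvPolynomial (minGens G) k} (hx : x ∈ relIdeal k G) : NoLin k x := by
  have h := le_gens k hx
  clear hx
  induction h using Submodule.span_induction with
  | mem x hx => exact noLin_gens hx
  | zero => exact ⟨by simp, by simp⟩
  | add x y _ _ hx hy => exact hx.add hy
  | smul a x _ hx => rw [smul_eq_mul, mul_comm]; exact hx.mul a

theorem four_le (s : Finset (MvPolynomial (minGens G) k))
    (hs : Ideal.span (s : Set (MvPolynomial (minGens G) k)) = relIdeal k G) : 4 ≤ s.card := by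
  classical
  obtain ⟨W, hW⟩ : ∃ W, W = Submodule.span k ((s.image (L (k := k)) : Finset (Fin 4 → k)) :
    Set (Fin 4 → k)) := ⟨_, rfl⟩
  have h1 : ∀ x ∈ relIdeal k G, L x ∈ W := by
    intro x hx
    rw [← hs] at hx
    induction hx using Submodule.span_induction with
    | mem x hx =>
      rw [hW]
      apply Submodule.subset_span
      rw [Finset.coe_image]
      exact ⟨x, hx, rfl⟩
    | zero => rw [map_zero]; exact W.zero_mem
    | add x y hx1 hy1 hx hy =>
      rw [map_add]
      exact W.add_mem hx hy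
    | smul a x hx1 hx =>
      have h2 : x ∈ relIdeal k G := hs ▸ hx1
      rw [smul_eq_mul, mul_comm, L_mul (noLin_rel h2)]
      exact W.smul_mem _ hx
  have h2 : ∀ i : Fin 4, (Pi.single i 1 : Fin 4 → k) ∈ W := by
    intro i
    fin_cases i
    · have := h1 _ (gens_le k (Ideal.subset_span ((mem_gens k).2 (Or.inl rfl))))
      rwa [L_gen0] at this
    · have := h1 _ (gens_le k (Ideal.subset_span ((mem_gens k).2 (Or.inr (Or.inl rfl)))))
      rwa [L_gen1] at this
    · have := h1 _ (gens_le k (Ideal.subset_span ((mem_gens k).2 (Or.inr (Or.inr (Or.inl rfl))))))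
      rwa [L_gen2] at this
    · have := h1 _ (gens_le k (Ideal.subset_span ((mem_gens k).2 (Or.inr (Or.inr (Or.inr rfl))))))
      rwa [L_gen3] at this
  have h3 : W = ⊤ := by
    rw [eq_top_iff]
    intro v _
    have : v = ∑ i, v i • (Pi.single i 1 : Fin 4 → k) := by
      funext j
      simp [Finset.sum_apply, Pi.single_apply]
    rw [this]
    exact W.sum_mem fun i _ => W.smul_mem _ (h2 i)
  have h4 : Module.finrank k W = 4 := by
    rw [h3, finrank_top]
    simp
  have h5 := finrank_span_finset_le_card (R := k) (s.image (L (k := k)))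
  rw [Set.finrank, ← hW, h4] at h5
  exact h5.trans Finset.card_image_le

theorem rho_eq (k : Type*) [Field k] : rho k G = 4 := by
  refine le_antisymm (rho_le k) ?_
  unfold rho
  refine le_csInf ⟨(gens k).card, gens k, rfl, le_antisymm (gens_le k) (le_gens k)⟩ ?_
  rintro n ⟨s, rfl, hs⟩
  exact four_le s hs

end relations

/-- **There is a nearly Gorenstein numerical semigroup of embedding dimension four that is not
almost symmetric and has exactly four relations, over every field.** -/
theorem result : ∃ Γ : AddSubmonoid ℕ, IsNumSemigroup Γ ∧ (minGens Γ).ncard = 4 ∧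
    NearlyGorenstein Γ ∧ ¬ AlmostSymmetric Γ ∧ ∀ (k : Type*) [Field k], rho k Γ = 4 := by
  refine ⟨G, ?_, ?_, nearlyGorenstein_G, not_almostSymmetric_G, fun k _ => rho_eq k⟩
  · refine (Set.finite_lt_nat 12).subset ?_
    intro n hn
    simp only [Set.mem_ofPred_eq, mem_G] at *
    omega
  · rw [minGens_G]
    simp [Set.ncard_eq_toFinset_card']

end Pool.Agent.Results.MP_8e9e7d_al.FourRelations
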